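import Mathlib

namespace Pool.Agent.Results.MP_14840f_nt.Classes

open Finset

/-- the attainable exponents for (a,p) are bounded -/
def Bounded (a p : ℕ) : Prop :=
  ∃ K : ℕ, ∀ S : Finset ℕ, a ∈ S → (∀ x ∈ S, a ≤ x) → ∀ k : ℕ,
    p ^ k ∣ ∑ x ∈ S, x.factorial → k ≤ K

def alive {R : Type} [CommRing R] [DecidableEq R] : ℕ → R → R → R → Bool
  | 0, _, _, _ => true
  | f + 1, c, t, s =>
    if t = 0 then decide (s = 0) else (alive f (c + 1) (c * t) s || alive f (c + 1) (c * t) (s + t))

theorem asc_dvd (n i j : ℕ) (h : i ≤ j) : n.ascFactorial i ∣ n.ascFactorial j := by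
  induction j, h using Nat.le_induction with
  | base => exact dvd_rfl
  | succ j _ ih => rw [Nat.ascFactorial_succ]; exact ih.mul_left _

theorem sound {R : Type} [CommRing R] [DecidableEq R] (a f : ℕ) : ∀ (i : ℕ) (s : R)
    (S : Finset ℕ), (∀ x ∈ S, a + i ≤ x) →
    s + ∑ x ∈ S, (((a + 1).ascFactorial (x - a) : ℕ) : R) = 0 →
    alive f ((a + 1 + i : ℕ) : R) (((a + 1).ascFactorial i : ℕ) : R) s = true := by
  induction f with
  | zero => intros; rfl
  | succ f ih =>
    intro i s S hS h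
    rw [alive]
    split_ifs with c
    · rw [sum_eq_zero, add_zero] at h
      · simpa using h
      · intro x hx
        obtain ⟨y, hy⟩ := asc_dvd (a + 1) i (x - a) (by have := hS x hx; omega)
        rw [hy, Nat.cast_mul, c, zero_mul]
    · have e1 : ((a + 1 + i : ℕ) : R) + 1 = ((a + 1 + (i + 1) : ℕ) : R) := by push_cast; ring
      have e2 : ((a + 1 + i : ℕ) : R) * (((a + 1).ascFactorial i : ℕ) : R)
          = (((a + 1).ascFactorial (i + 1) : ℕ) : R) := by
        rw [Nat.ascFactorial_succ, Nat.cast_mul]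
      rw [e1, e2, Bool.or_eq_true]
      by_cases m : a + i ∈ S
      · right
        refine ih (i + 1) _ (S.erase (a + i)) (fun x hx => ?_) ?_
        · have := hS x (mem_of_mem_erase hx)
          have := ne_of_mem_erase hx
          omega
        · rw [← add_sum_erase _ _ m, Nat.add_sub_cancel_left] at h
          rw [add_assoc]; exact h
      · left
        refine ih (i + 1) _ S (fun x hx => ?_) h
        have := hS x hx
        have : x ≠ a + i := fun e => m (e ▸ hx)
        omega

theorem bdd (a p K M f : ℕ) (hp : p.Prime) (hM : M = p ^ K)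
    (h : alive f ((a : ZMod M) + 2) ((a : ZMod M) + 1) 1 = false) : Bounded a p := by
  refine ⟨a.factorial + K, fun S ha hS k hk => ?_⟩
  have e : ∑ x ∈ S, x.factorial = a.factorial * ∑ x ∈ S, (a + 1).ascFactorial (x - a) := by
    rw [mul_sum]
    refine sum_congr rfl fun x hx => ?_
    rw [Nat.factorial_mul_ascFactorial, Nat.add_sub_cancel' (hS x hx)]
  have hW : ¬ p ^ K ∣ ∑ x ∈ S, (a + 1).ascFactorial (x - a) := by
    intro d
    rw [← hM, ← ZMod.natCast_eq_zero_iff, ← add_sum_erase _ _ ha, Nat.sub_self,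
      Nat.ascFactorial_zero, Nat.cast_add, Nat.cast_sum, Nat.cast_one] at d
    have := sound (R := ZMod M) a f 1 1 (S.erase a) (fun x hx => by
      have := hS x (mem_of_mem_erase hx)
      have := ne_of_mem_erase hx
      omega) d
    have e1 : ((a + 1 + 1 : ℕ) : ZMod M) = a + 2 := by push_cast; ring
    have e2 : (((a + 1).ascFactorial 1 : ℕ) : ZMod M) = a + 1 := by simp [Nat.ascFactorial]
    rw [e1, e2, h] at this
    exact Bool.false_ne_true this
  rw [e] at hk
  generalize ∑ x ∈ S, (a + 1).ascFactorial (x - a) = W at hk hW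
  have w0 : W ≠ 0 := by rintro rfl; exact hW (dvd_zero _)
  have a0 := a.factorial_ne_zero
  rw [hp.pow_dvd_iff_le_factorization (mul_ne_zero a0 w0), Nat.factorization_mul a0 w0] at hk
  rw [hp.pow_dvd_iff_le_factorization w0] at hW
  have := Nat.factorization_lt p a0
  simp only [Finsupp.add_apply] at hk
  omega

def L2 : List ℕ := [0, 2, 6, 14, 16, 18, 22, 24, 30, 34, 38, 40, 46, 50, 54, 56, 62, 64, 66, 70,
  78, 80, 82, 86, 88, 94, 98, 102, 104, 110, 114, 118, 120, 126]

def L3 : List ℕ := [0, 1, 4, 7, 9, 10, 12, 13, 16, 18, 19, 25, 27, 28, 31, 34, 36, 37, 39, 40, 43,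
  45, 46, 52, 54, 55, 58, 61, 63, 64, 66, 67, 70, 72, 73, 75, 79]

theorem c2 : ∀ r : ℕ, r < 128 → r ∉ L2 →
    alive 12 ((r : ZMod 128) + 2) ((r : ZMod 128) + 1) 1 = false := by decide +kernel

theorem c3 : ∀ r : ℕ, r < 81 → r ∉ L3 →
    alive 12 ((r : ZMod 81) + 2) ((r : ZMod 81) + 1) 1 = false := by decide +kernel

theorem result :
    (∀ a p : ℕ, p.Prime → p ∣ a + 1 → Bounded a p) ∧
    (∀ a : ℕ, a % 128 ∉ L2 → Bounded a 2) ∧ (∀ a : ℕ, a % 81 ∉ L3 → Bounded a 3) := by
  refine ⟨fun a p hp h => ?_, fun a h => ?_, fun a h => ?_⟩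
  · have : Fact p.Prime := ⟨hp⟩
    refine bdd a p 1 p 1 hp (pow_one p).symm ?_
    have e : (a : ZMod p) + 1 = 0 := by
      have := (ZMod.natCast_eq_zero_iff _ _).2 h
      simpa using this
    simp [alive, e]
  · refine bdd a 2 7 128 12 Nat.prime_two (by norm_num) ?_
    have := c2 (a % 128) (Nat.mod_lt _ (by norm_num)) h
    rwa [ZMod.natCast_mod] at this
  · refine bdd a 3 4 81 12 Nat.prime_three (by norm_num) ?_
    have := c3 (a % 81) (Nat.mod_lt _ (by norm_num)) h
    rwa [ZMod.natCast_mod] at this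

end Pool.Agent.Results.MP_14840f_nt.Classes
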